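import Pool.Agent.Q198.TPE

set_option autoImplicit false

/-!
MP_c563b5_an: the gaps between consecutive zeros of real-rooted polynomials with totally positive
values at the nonnegative integers are unbounded.
-/

namespace Pool.Agent.Results.MP_c563b5_an.UnboundedGaps

open Pool.Agent.Q198.TP Polynomial

/-- `P` is an admissible polynomial of degree `n` with the zeros `x 0 ≤ … ≤ x (n-1)`. -/
def Admissible (n : ℕ) (P : ℝ[X]) (x : Fin n → ℝ) : Prop :=
  2 ≤ n ∧ (∃ c : ℝ, c ≠ 0 ∧ P = C c * ∏ j, (X - C (x j))) ∧ Monotone x ∧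
    IsTP fun k => P.eval (k : ℝ)

theorem result : ∀ d : ℝ, ∃ (n : ℕ) (P : ℝ[X]) (x : Fin n → ℝ), Admissible n P x ∧
    ∃ (j : ℕ) (h : j + 1 < n), d < x ⟨j + 1, h⟩ - x ⟨j, Nat.lt_of_succ_lt h⟩ := by
  intro d
  obtain ⟨K, hK⟩ := exists_nat_gt (max d 1)
  have hK1 : 1 ≤ K := by
    have : (1 : ℝ) < K := lt_of_le_of_lt (le_max_right _ _) hK
    exact_mod_cast this.le
  have hKd : d < K := lt_of_le_of_lt (le_max_left _ _) hK
  obtain ⟨n, hn, hTP⟩ := tp_main K hK1
  set x : Fin (n + 2) → ℝ := fun j => if (j : ℕ) < n then -(1 / 2) else (K : ℝ) + 1 / 2 with hx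
  have hval : ∀ t : ℝ, (C (1 : ℝ) * ∏ j, (X - C (x j)) : ℝ[X]).eval t
      = (t - (K + 1 / 2)) * ((t - (K + 1 / 2)) * (t + 1 / 2) ^ n) := by
    intro t
    rw [eval_mul, eval_C, one_mul, eval_prod, Fin.prod_univ_castSucc, Fin.prod_univ_castSucc]
    have h1 : ∀ j : Fin n, (X - C (x j.castSucc.castSucc) : ℝ[X]).eval t = t + 1 / 2 := by
      intro j
      have : x j.castSucc.castSucc = -(1 / 2) := by
        rw [hx]; dsimp only
        rw [if_pos (by simp)]
      rw [this]; simp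
    have h2 : (X - C (x (Fin.last n).castSucc) : ℝ[X]).eval t = t - (K + 1 / 2) := by
      have : x (Fin.last n).castSucc = K + 1 / 2 := by
        rw [hx]; dsimp only
        rw [if_neg (by simp)]
      rw [this]; simp
    have h3 : (X - C (x (Fin.last (n + 1))) : ℝ[X]).eval t = t - (K + 1 / 2) := by
      have : x (Fin.last (n + 1)) = K + 1 / 2 := by
        rw [hx]; dsimp only
        rw [if_neg (by simp)]
      rw [this]; simp
    rw [h2, h3, Finset.prod_congr rfl fun j _ => h1 j, Finset.prod_const, Finset.card_univ,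
      Fintype.card_fin]
    ring
  refine ⟨n + 2, _, x, ⟨by omega, ⟨1, one_ne_zero, rfl⟩, ?_, ?_⟩, n - 1, by omega, ?_⟩
  · intro i j hij
    have hij' : (i : ℕ) ≤ j := hij
    have h0 : (0 : ℝ) ≤ K := Nat.cast_nonneg K
    rw [hx]; dsimp only
    split_ifs
    · exact le_rfl
    · linarith
    · omega
    · exact le_rfl
  · have : (fun k : ℕ => (C (1 : ℝ) * ∏ j, (X - C (x j)) : ℝ[X]).eval (k : ℝ))
        = fun k : ℕ => ((k : ℝ) - (K + 1 / 2)) * (((k : ℝ) - (K + 1 / 2)) * ((k : ℝ) + 1 / 2) ^ n) :=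
      funext fun k => hval k
    rw [this]
    exact hTP
  · rw [hx]; dsimp only
    rw [if_neg (by omega), if_pos (by omega)]
    linarith

end Pool.Agent.Results.MP_c563b5_an.UnboundedGaps
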